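import Mathlib

/-!
# The exponential bound for the minimum step of an SFT is tight (MP_bb9d96_lc, Q1)

For every `k ≥ 1` we build a deterministic presentation with `3k + 1` vertices of a shift of finite
type whose minimum step is at least `2 ^ k`; every presentation of it has at least `k` vertices.
-/

namespace Pool.Agent.Results.MP_bb9d96_lc.ExponentialStep

/-! ### Definitions of the problem -/

/-- A labelled graph on `V` with labels in `A` is given by `E v a w` (there is an edge from `v` to
`w` labelled `a`).  It is deterministic if at every vertex and for every symbol there is at most one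
outgoing edge with that label. -/
def Deterministic {V A : Type} (E : V → A → V → Prop) : Prop :=
  ∀ v a w w', E v a w → E v a w' → w = w'

/-- The shift space presented by a labelled graph: the label sequences of bi-infinite walks. -/
def shiftOf {V A : Type} (E : V → A → V → Prop) : Set (ℤ → A) :=
  {x | ∃ s : ℤ → V, ∀ n, E (s n) (x n) (s (n + 1))}

/-- `X` is `M`-step: `X` is the set of sequences avoiding a set `F` of words of length `M + 1`. -/
def IsStep {A : Type} (M : ℕ) (X : Set (ℤ → A)) : Prop :=
  ∃ F : Set (Fin (M + 1) → A), X = {x | ∀ n : ℤ, (fun i : Fin (M + 1) => x (n + (i : ℕ))) ∉ F}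

/-- `X` is a shift of finite type. -/
def IsSFT {A : Type} (X : Set (ℤ → A)) : Prop := ∃ M, IsStep M X

/-- The minimum step. -/
noncomputable def minStep {A : Type} (X : Set (ℤ → A)) : ℕ := sInf {M | IsStep M X}

/-- The numbers of vertices of the deterministic presentations of `X`. -/
def detSizes {A : Type} (X : Set (ℤ → A)) : Set ℕ :=
  {m | ∃ (V : Type) (_ : Fintype V) (E : V → A → V → Prop),
    Fintype.card V = m ∧ Deterministic E ∧ shiftOf E = X}

/-- `s_d(X)`: the least number of vertices of a deterministic presentation of `X`. -/
noncomputable def sd {A : Type} (X : Set (ℤ → A)) : ℕ := sInf (detSizes X)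

/-! ### The counter tokens -/

variable {k : ℕ}

/-- Letters: `inl i` increments a counter whose lowest zero bit is `i`, `inr false` is the reset
letter, `inr true` is the test letter. -/
abbrev Lt (k : ℕ) := Fin k ⊕ Bool

/-- States: `inl (j, some x)`: the `j`-th bit is `x`; `inl (j, none)`: an error has been seen at the
`j`-th bit; `inr ()`: the final state. -/
abbrev St (k : ℕ) := (Fin k × Option Bool) ⊕ Unit

def upd (j : Fin k) (x : Option Bool) (i : Fin k) : Option Bool :=
  match x with
  | none => none
  | some x => if j < i then (if x then some false else none)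
      else if j = i then (if x then none else some true) else some x

def upd' (j : Fin k) (x : Option Bool) : Lt k → Option Bool
  | .inl i => upd j x i
  | .inr _ => x

def delta : St k → Lt k → Option (St k)
  | .inl (j, x), .inl i => some (.inl (j, upd j x i))
  | .inl (j, _), .inr false => some (.inl (j, some false))
  | .inl (_, none), .inr true => some (.inr ())
  | .inl (_, some _), .inr true => none
  | .inr (), .inr true => some (.inr ())
  | .inr (), .inr false => none
  | .inr (), .inl _ => none

def E (v : St k) (a : Lt k) (w : St k) : Prop := delta v a = some w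

theorem E_det : Deterministic (E (k := k)) := by
  intro v a w w' h h'
  unfold E at h h'
  rw [h] at h'
  exact Option.some.inj h'

/-- Reading a word of increments with the `j`-th token, starting from `0`. -/
def run (j : Fin k) (v : List (Fin k)) : Option Bool := v.foldl (upd j) (some false)

def ErrFree (v : List (Fin k)) : Prop := ∀ j, run j v ≠ none

theorem run_append (j : Fin k) (v : List (Fin k)) (i : Fin k) :
    run j (v ++ [i]) = upd j (run j v) i := by
  simp [run, List.foldl_append]

theorem foldl_none (j : Fin k) (u : List (Fin k)) : u.foldl (upd j) none = none := by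
  induction u with
  | nil => rfl
  | cons i u ih => simpa [upd] using ih

theorem ErrFree.of_append {v u : List (Fin k)} (h : ErrFree (v ++ u)) : ErrFree v := by
  intro j hj
  apply h j
  unfold run at *
  rw [List.foldl_append, hj, foldl_none]

/-- The value of the counter. -/
def val (x : Fin k → Bool) : ℕ := ∑ j, if x j then 2 ^ (j : ℕ) else 0

theorem sum_lt (i : Fin k) : ∑ j : Fin k, (if j < i then 2 ^ (j : ℕ) else 0) = 2 ^ (i : ℕ) - 1 := by
  have h1 : ∑ j : Fin k, (if j < i then 2 ^ (j : ℕ) else 0) =
      ∑ m ∈ Finset.range k, (if m < (i : ℕ) then 2 ^ m else 0) := by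
    rw [← Fin.sum_univ_eq_sum_range (fun m => if m < (i : ℕ) then 2 ^ m else 0) k]
    rfl
  rw [h1, ← Finset.sum_filter]
  have h2 : (Finset.range k).filter (fun m => m < (i : ℕ)) = Finset.range i := by
    ext m
    simp only [Finset.mem_filter, Finset.mem_range]
    have := i.isLt
    omega
  rw [h2, Nat.geomSum_eq (by norm_num)]
  simp

theorem val_le (x : Fin k → Bool) : val x ≤ 2 ^ k - 1 := by
  have h : ∑ j : Fin k, 2 ^ (j : ℕ) = 2 ^ k - 1 := by
    rw [Fin.sum_univ_eq_sum_range (fun m => 2 ^ m) k, Nat.geomSum_eq (by norm_num)]
    simp
  rw [← h]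
  unfold val
  exact Finset.sum_le_sum fun j _ => by split_ifs <;> simp

theorem val_all (x : Fin k → Bool) (hx : ∀ j, x j = true) : val x = 2 ^ k - 1 := by
  have h : ∑ j : Fin k, 2 ^ (j : ℕ) = 2 ^ k - 1 := by
    rw [Fin.sum_univ_eq_sum_range (fun m => 2 ^ m) k, Nat.geomSum_eq (by norm_num)]
    simp
  rw [← h]
  unfold val
  exact Finset.sum_congr rfl fun j _ => by rw [if_pos (hx j)]

/-- An error-free word determines the bits, and the value of the counter is its length. -/
theorem ErrFree.bits {v : List (Fin k)} (h : ErrFree v) :
    ∃ x : Fin k → Bool, (∀ j, run j v = some (x j)) ∧ val x = v.length := by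
  induction v using List.reverseRecOn with
  | nil => exact ⟨fun _ => false, fun j => rfl, by simp [val]⟩
  | append_singleton v i ih =>
    obtain ⟨x, hx, hv⟩ := ih h.of_append
    have hstep : ∀ j, upd j (some (x j)) i ≠ none := by
      intro j
      rw [← hx j, ← run_append]
      exact h j
    have hlt : ∀ j, j < i → x j = true := by
      intro j hj
      have := hstep j
      simp only [upd, hj, if_true] at this
      by_contra hc
      rw [if_neg hc] at this
      exact this rfl
    have hi : x i = false := by
      have := hstep i
      simp only [upd, lt_irrefl, if_false, if_true] at this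
      by_contra hc
      rw [if_pos (by simpa using hc)] at this
      exact this rfl
    refine ⟨fun j => if j < i then false else if j = i then true else x j, fun j => ?_, ?_⟩
    · rw [run_append, hx j]
      simp only [upd]
      split_ifs with h1 h2 h3 h4
      · rfl
      · exact absurd (hlt j h1) h2
      · subst h3; rw [hi] at h4; simp at h4
      · rfl
      · rfl
    · rw [List.length_append, List.length_singleton, ← hv]
      have key : val (fun j => if j < i then false else if j = i then true else x j) +
          ∑ j : Fin k, (if j < i then 2 ^ (j : ℕ) else 0) =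
          val x + ∑ j : Fin k, (if j = i then 2 ^ (j : ℕ) else 0) := by
        unfold val
        rw [← Finset.sum_add_distrib, ← Finset.sum_add_distrib]
        refine Finset.sum_congr rfl fun j _ => ?_
        by_cases h1 : j < i
        · have h2 : j ≠ i := ne_of_lt h1
          simp [h1, h2, hlt j h1]
        · by_cases h2 : j = i
          · subst h2
            simp [hi]
          · simp [h1, h2]
      rw [sum_lt, Finset.sum_ite_eq' Finset.univ i] at key
      simp only [Finset.mem_univ, if_true] at key
      have : 1 ≤ 2 ^ (i : ℕ) := Nat.one_le_two_pow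
      omega

theorem ErrFree.length_le {v : List (Fin k)} (h : ErrFree v) : v.length ≤ 2 ^ k - 1 := by
  obtain ⟨x, -, h2⟩ := h.bits
  rw [← h2]
  exact val_le x

theorem ErrFree.extend {v : List (Fin k)} (h : ErrFree v) (hl : v.length < 2 ^ k - 1) :
    ∃ i, ErrFree (v ++ [i]) := by
  obtain ⟨x, h1, h2⟩ := h.bits
  have hex : ∃ i, x i = false := by
    by_contra hcon
    have := val_all x (fun j => by
      by_contra hj
      exact hcon ⟨j, by simpa using hj⟩)
    omega
  obtain ⟨i, hi, hmin⟩ : ∃ i, x i = false ∧ ∀ j < i, x j = true := by
    obtain ⟨i, hi⟩ := hex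
    have hne : (Finset.univ.filter (fun i => x i = false)).Nonempty := ⟨i, by simp [hi]⟩
    refine ⟨(Finset.univ.filter (fun i => x i = false)).min' hne, ?_, ?_⟩
    · have := Finset.min'_mem _ hne
      simpa using this
    · intro j hj
      by_contra hc
      have hjm : j ∈ Finset.univ.filter (fun i => x i = false) := by simp; simpa using hc
      exact absurd (Finset.min'_le _ j hjm) (not_le.mpr hj)
  refine ⟨i, fun j => ?_⟩
  rw [run_append, h1 j]
  simp only [upd]
  split_ifs with a1 a2 a3 a4
  · simp
  · exact absurd (hmin j a1) a2
  · subst a3; rw [hi] at a4; simp at a4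
  · simp
  · simp

theorem exists_full : ∃ v : List (Fin k), ErrFree v ∧ v.length = 2 ^ k - 1 := by
  have : ∀ l, l ≤ 2 ^ k - 1 → ∃ v : List (Fin k), ErrFree v ∧ v.length = l := by
    intro l
    induction l with
    | zero => intro _; exact ⟨[], fun j => by simp [run], rfl⟩
    | succ l ih =>
      intro hl
      obtain ⟨v, h1, h2⟩ := ih (by omega)
      obtain ⟨i, hi⟩ := h1.extend (by omega)
      exact ⟨v ++ [i], hi, by simp [h2]⟩
  exact this _ le_rfl

/-! ### The local description of the shift -/

/-- The sequences presented by `E` (for `k ≥ 1`): a test letter is followed by test letters only,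
and a counter that is tested after a reset has made an error. -/
def Good (x : ℤ → Lt k) : Prop :=
  (∀ n, x n = .inr true → x (n + 1) = .inr true) ∧
  ∀ (n : ℤ) (v : List (Fin k)), x n = .inr false →
    (∀ (m : ℕ) (hm : m < v.length), x (n + 1 + m) = .inl v[m]) →
    x (n + 1 + v.length) = .inr true → ¬ ErrFree v

theorem good_of_mem {x : ℤ → Lt k} (hx : x ∈ shiftOf (E (k := k))) : Good x := by
  obtain ⟨s, hs⟩ := hx
  have h1 : ∀ n, x n = .inr true → s (n + 1) = .inr () := by
    intro n hn
    have := hs n
    rw [hn] at this
    unfold E at this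
    rcases h : s n with ⟨j, _ | y⟩ | _
    · rw [h] at this; simpa [delta] using this.symm
    · rw [h] at this; simp [delta] at this
    · rw [h] at this; simpa [delta] using this.symm
  refine ⟨fun n hn => ?_, fun n v hn hv hb hE => ?_⟩
  · have h2 := hs (n + 1)
    rw [h1 n hn] at h2
    unfold E at h2
    rcases h : x (n + 1) with i | _ | _
    · rw [h] at h2; simp [delta] at h2
    · rw [h] at h2; simp [delta] at h2
    · rfl
  · obtain ⟨j, hj⟩ : ∃ j, s (n + 1) = .inl (j, some false) := by
      have := hs n
      rw [hn] at this
      unfold E at this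
      rcases h : s n with ⟨j, y⟩ | _
      · rw [h] at this
        exact ⟨j, by simpa [delta] using this.symm⟩
      · rw [h] at this; simp [delta] at this
    have h3 : ∀ m : ℕ, m ≤ v.length → s (n + 1 + m) = .inl (j, run j (v.take m)) := by
      intro m
      induction m with
      | zero => intro _; simpa [run] using hj
      | succ m ih =>
        intro hm
        have h4 := hs (n + 1 + m)
        rw [ih (by omega), hv m (by omega)] at h4
        unfold E at h4
        simp only [delta, Option.some.injEq] at h4
        have h5 : v.take (m + 1) = v.take m ++ [v[m]] := by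
          rw [List.take_succ_eq_append_getElem (by omega)]
        rw [h5, run_append, h4]
        congr 1
        push_cast
        ring
    have h6 := h3 v.length le_rfl
    have h7 := hs (n + 1 + v.length)
    rw [h6, hb, List.take_length] at h7
    unfold E at h7
    rcases h : run j v with _ | y
    · exact hE j h
    · rw [h] at h7; simp [delta] at h7

/-- Reading `d` letters before the position `n` with the `j`-th token, starting from `0`. -/
def G (j : Fin k) (x : ℤ → Lt k) : ℕ → ℤ → Option Bool
  | 0, _ => some false
  | d + 1, n => upd' j (G j x d (n - 1)) (x (n - 1))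

open Classical in
noncomputable def tok (j : Fin k) (x : ℤ → Lt k) (n : ℤ) : Option Bool :=
  if h : ∃ d : ℕ, x (n - 1 - d) = .inr false then G j x (Nat.find h) n else none

theorem tok_reset (j : Fin k) (x : ℤ → Lt k) (n : ℤ) (hn : x n = .inr false) :
    tok j x (n + 1) = some false := by
  have h : ∃ d : ℕ, x (n + 1 - 1 - d) = .inr false := ⟨0, by simpa using hn⟩
  unfold tok
  rw [dif_pos h]
  have h0 : Nat.find h = 0 := by
    rw [Nat.find_eq_zero]
    simpa using hn
  rw [h0]
  rfl

theorem tok_step (j : Fin k) (x : ℤ → Lt k) (n : ℤ) (i : Fin k) (hn : x n = .inl i) :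
    tok j x (n + 1) = upd j (tok j x n) i := by
  classical
  unfold tok
  by_cases h : ∃ d : ℕ, x (n - 1 - d) = .inr false
  · have h' : ∃ d : ℕ, x (n + 1 - 1 - d) = .inr false := by
      obtain ⟨d, hd⟩ := h
      exact ⟨d + 1, by rw [← hd]; congr 1; push_cast; ring⟩
    rw [dif_pos h, dif_pos h']
    have hf : Nat.find h' = Nat.find h + 1 := by
      rw [Nat.find_eq_iff]
      constructor
      · have hsp := Nat.find_spec h
        have e : n + 1 - 1 - ((Nat.find h + 1 : ℕ) : ℤ) = n - 1 - (Nat.find h : ℕ) := by
          push_cast; ring
        rw [e]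
        exact hsp
      · intro m hm hc
        rcases m with _ | m
        · simp [hn] at hc
        · refine Nat.find_min h (m := m) (by omega) ?_
          rw [← hc]; congr 1; push_cast; ring
    rw [hf]
    simp only [G, add_sub_cancel_right, hn, upd']
  · have h' : ¬ ∃ d : ℕ, x (n + 1 - 1 - d) = .inr false := by
      rintro ⟨d, hd⟩
      rcases d with _ | d
      · simp [hn] at hd
      · exact h ⟨d, by rw [← hd]; congr 1; push_cast; ring⟩
    rw [dif_neg h, dif_neg h']
    rfl

theorem mem_of_good [NeZero k] {x : ℤ → Lt k} (hx : Good x) : x ∈ shiftOf (E (k := k)) := by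
  classical
  have hstep : ∀ (j : Fin k) (n : ℤ), x n ≠ .inr true →
      E (.inl (j, tok j x n)) (x n) (.inl (j, tok j x (n + 1))) := by
    intro j n hn
    unfold E
    rcases h : x n with i | _ | _
    · simp only [delta]
      rw [tok_step j x n i h]
    · simp only [delta]
      rw [tok_reset j x n h]
    · exact absurd h hn
  by_cases hA : ∀ n, x n ≠ .inr true
  · exact ⟨fun n => .inl (0, tok 0 x n), fun n => hstep 0 n (hA n)⟩
  · push Not at hA
    obtain ⟨p, hp⟩ := hA
    have hup : ∀ (q : ℤ), x q = .inr true → ∀ d : ℕ, x (q + d) = .inr true := by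
      intro q hq d
      induction d with
      | zero => simpa using hq
      | succ d ih =>
        have := hx.1 _ ih
        rw [← this]; congr 1; push_cast; ring
    have hup' : ∀ q r : ℤ, x q = .inr true → q ≤ r → x r = .inr true := by
      intro q r hq hr
      have := hup q hq (r - q).toNat
      rwa [show q + ((r - q).toNat : ℤ) = r by omega] at this
    by_cases hB : ∀ n, x n = .inr true
    · exact ⟨fun _ => .inr (), fun n => by rw [hB n]; rfl⟩
    · push Not at hB
      obtain ⟨q, hq⟩ := hB
      have hqp : q < p := by
        by_contra hc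
        exact hq (hup' p q hp (by omega))
      -- the first test letter
      obtain ⟨n0, h0, h0'⟩ : ∃ n0, x n0 = .inr true ∧ x (n0 - 1) ≠ .inr true := by
        have hex : ∃ d : ℕ, x (q + d) = .inr true := ⟨(p - q).toNat, by
          rwa [show q + ((p - q).toNat : ℤ) = p by omega]⟩
        refine ⟨q + Nat.find hex, Nat.find_spec hex, ?_⟩
        rcases hd : Nat.find hex with _ | d
        · have := Nat.find_spec hex
          rw [hd] at this
          exact absurd (by simpa using this) hq
        · have := Nat.find_min hex (m := d) (by omega)
          rwa [show q + ((d + 1 : ℕ) : ℤ) - 1 = q + d by push_cast; ring]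
      have hlt : ∀ n < n0, x n ≠ .inr true := fun n hn hc =>
        h0' (hup' n (n0 - 1) hc (by omega))
      -- a token that has seen an error
      obtain ⟨j, hj⟩ : ∃ j, tok j x n0 = none := by
        by_cases h : ∃ d : ℕ, x (n0 - 1 - d) = .inr false
        · set d := Nat.find h with hd
          have hd1 : x (n0 - 1 - d) = .inr false := Nat.find_spec h
          have hd2 : ∀ m : ℕ, m < d → ∃ i, x (n0 - 1 - m) = .inl i := by
            intro m hm
            rcases h' : x (n0 - 1 - m) with i | _ | _
            · exact ⟨i, rfl⟩
            · exact absurd h' (Nat.find_min h hm)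
            · exact absurd h' (hlt _ (by omega))
          choose! g hg using hd2
          let v : List (Fin k) := List.ofFn (fun m : Fin d => g (d - 1 - m))
          have hvl : v.length = d := by simp [v]
          have hv : ∀ (m : ℕ) (hm : m < v.length), x (n0 - 1 - d + 1 + m) = .inl v[m] := by
            intro m hm
            have hm' : m < d := by omega
            have := hg (d - 1 - m) (by omega)
            simp only [v, List.getElem_ofFn]
            rw [← this]
            congr 1
            omega
          have hne := hx.2 (n0 - 1 - d) v hd1 hv (by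
            rw [hvl, show n0 - 1 - (d : ℤ) + 1 + d = n0 by ring]; exact h0)
          unfold ErrFree at hne
          push Not at hne
          obtain ⟨j, hj⟩ := hne
          refine ⟨j, ?_⟩
          unfold tok
          rw [dif_pos h, ← hd]
          have hG : ∀ e : ℕ, e ≤ v.length → G j x e (n0 - d + e) = run j (v.take e) := by
            intro e
            induction e with
            | zero => intro _; simp [G, run]
            | succ e ih =>
              intro he
              simp only [G]
              have h5 : v.take (e + 1) = v.take e ++ [v[e]] := by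
                rw [List.take_succ_eq_append_getElem (by omega)]
              rw [show n0 - (d : ℤ) + ((e + 1 : ℕ) : ℤ) - 1 = n0 - d + e by push_cast; ring,
                ih (by omega), h5, run_append,
                show n0 - (d : ℤ) + e = n0 - 1 - d + 1 + e by ring, hv e (by omega)]
              rfl
          have h8 := hG d (by omega)
          rw [show n0 - (d : ℤ) + d = n0 by ring] at h8
          rw [h8, ← hvl, List.take_length, hj]
        · exact ⟨0, by unfold tok; rw [dif_neg h]⟩
      refine ⟨fun n => if n ≤ n0 then .inl (j, tok j x n) else .inr (), fun n => ?_⟩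
      rcases lt_trichotomy n n0 with h | h | h
      · simp only [if_pos (le_of_lt h), if_pos (show n + 1 ≤ n0 by omega)]
        exact hstep j n (hlt n h)
      · subst h
        simp only [le_refl, if_true, if_neg (show ¬ (n + 1 ≤ n) by omega)]
        rw [hj, h0]
        rfl
      · simp only [if_neg (show ¬ (n ≤ n0) by omega), if_neg (show ¬ (n + 1 ≤ n0) by omega)]
        rw [hup' n0 n h0 (by omega)]
        rfl

theorem mem_iff [NeZero k] {x : ℤ → Lt k} : x ∈ shiftOf (E (k := k)) ↔ Good x :=
  ⟨good_of_mem, mem_of_good⟩

/-! ### The shift is of finite type, with large minimum step -/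

theorem isStep [NeZero k] : IsStep (2 ^ k) (shiftOf (E (k := k))) := by
  refine ⟨{w | ∀ y ∈ shiftOf (E (k := k)), ∀ n : ℤ,
    w ≠ fun i : Fin (2 ^ k + 1) => y (n + (i : ℕ))}, ?_⟩
  ext x
  simp only [Set.mem_ofPred_eq]
  constructor
  · intro hx n h
    exact h x hx n rfl
  · intro hx
    have hw : ∀ n, ∃ y, Good y ∧ ∃ n', ∀ m : ℕ, m ≤ 2 ^ k → x (n + m) = y (n' + m) := by
      intro n
      have := hx n
      push Not at this
      obtain ⟨y, hy, n', hyn⟩ := this
      exact ⟨y, mem_iff.mp hy, n', fun m hm => congrFun hyn ⟨m, by omega⟩⟩
    have h1k : 1 ≤ 2 ^ k := Nat.one_le_two_pow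
    rw [mem_iff]
    refine ⟨fun n hn => ?_, fun n v hn hv hb hE => ?_⟩
    · obtain ⟨y, hy, n', hyn⟩ := hw n
      have e0 := hyn 0 (by omega)
      have e1 := hyn 1 (by omega)
      simp only [Nat.cast_zero, add_zero, Nat.cast_one] at e0 e1
      rw [e1]
      exact hy.1 _ (by rw [← e0]; exact hn)
    · obtain ⟨y, hy, n', hyn⟩ := hw n
      have hl := hE.length_le
      have e0 := hyn 0 (by omega)
      simp only [Nat.cast_zero, add_zero] at e0
      refine hy.2 n' v (by rw [← e0]; exact hn) (fun m hm => ?_) ?_ hE
      · have := hyn (m + 1) (by omega)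
        rw [← hv m hm, show n + 1 + (m : ℤ) = n + ((m + 1 : ℕ) : ℤ) by push_cast; ring, this]
        congr 1; push_cast; ring
      · have := hyn (v.length + 1) (by omega)
        rw [← hb, show n + 1 + (v.length : ℤ) = n + ((v.length + 1 : ℕ) : ℤ) by push_cast; ring,
          this]
        congr 1; push_cast; ring

/-- The sequence `a^∞ v b^∞`. -/
def seq (v : List (Fin k)) (n : ℤ) : Lt k :=
  if n ≤ 0 then .inr false
  else if h : (n - 1).toNat < v.length then .inl v[(n - 1).toNat] else .inr true

theorem seq_nonpos (v : List (Fin k)) {n : ℤ} (hn : n ≤ 0) : seq v n = .inr false := by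
  simp [seq, hn]

theorem seq_mid (v : List (Fin k)) (m : ℕ) (hm : m < v.length) : seq v (1 + m) = .inl v[m] := by
  unfold seq
  rw [if_neg (by omega)]
  have h : (1 + (m : ℤ) - 1).toNat = m := by omega
  simp only [h]
  rw [dif_pos hm]

theorem seq_big (v : List (Fin k)) {n : ℤ} (hn : (v.length : ℤ) < n) : seq v n = .inr true := by
  unfold seq
  rw [if_neg (by omega), dif_neg (by omega)]

theorem good_seq (v : List (Fin k)) : Good (seq v) ↔ ¬ ErrFree v := by
  constructor
  · intro h
    refine h.2 0 v (seq_nonpos v le_rfl) (fun m hm => ?_) ?_
    · rw [zero_add]; exact seq_mid v m hm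
    · exact seq_big v (by omega)
  · intro h
    have hcase : ∀ n : ℤ, n ≤ 0 ∨ (∃ m : ℕ, ∃ hm : m < v.length, n = 1 + m) ∨
        (v.length : ℤ) < n := by
      intro n
      by_cases h1 : n ≤ 0
      · exact Or.inl h1
      · by_cases h2 : (v.length : ℤ) < n
        · exact Or.inr (Or.inr h2)
        · exact Or.inr (Or.inl ⟨(n - 1).toNat, by omega, by omega⟩)
    refine ⟨fun n hn => ?_, fun n u hn hu hb hE => ?_⟩
    · rcases hcase n with h1 | ⟨m, hm, rfl⟩ | h1
      · rw [seq_nonpos v h1] at hn; simp at hn
      · rw [seq_mid v m hm] at hn; simp at hn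
      · exact seq_big v (by omega)
    · have hn0 : n ≤ 0 := by
        rcases hcase n with h1 | ⟨m, hm, rfl⟩ | h1
        · exact h1
        · rw [seq_mid v m hm] at hn; simp at hn
        · rw [seq_big v h1] at hn; simp at hn
      have hn1 : n = 0 := by
        by_contra hne
        have h1 : n + 1 ≤ 0 := by omega
        rcases Nat.eq_zero_or_pos u.length with h0 | h0
        · rw [h0] at hb
          simp only [Nat.cast_zero, add_zero] at hb
          rw [seq_nonpos v h1] at hb
          simp at hb
        · have := hu 0 h0
          simp only [Nat.cast_zero, add_zero] at this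
          rw [seq_nonpos v h1] at this
          simp at this
      subst hn1
      simp only [zero_add] at hu hb
      have hl1 : u.length ≤ v.length := by
        by_contra hc
        have := hu v.length (by omega)
        rw [seq_big v (by omega)] at this
        simp at this
      have hl2 : v.length ≤ u.length := by
        by_contra hc
        rw [seq_mid v u.length (by omega)] at hb
        simp at hb
      have huv : u = v := by
        refine List.ext_getElem (by omega) fun m h1 h2 => ?_
        have := hu m h1
        rw [seq_mid v m h2] at this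
        exact (Sum.inl.inj this).symm
      exact h (huv ▸ hE)

theorem step_ge [NeZero k] {M : ℕ} (hM : IsStep M (shiftOf (E (k := k)))) : 2 ^ k ≤ M := by
  by_contra hc
  push Not at hc
  obtain ⟨F, hF⟩ := hM
  obtain ⟨v, hv, hl⟩ := exists_full (k := k)
  have h1k : 1 ≤ 2 ^ k := Nat.one_le_two_pow
  have hnot : seq v ∉ shiftOf (E (k := k)) := by
    rw [mem_iff, good_seq]
    exact fun h => h hv
  apply hnot
  rw [hF]
  intro n
  by_cases h1 : n + M ≤ v.length
  · -- no test letter in the window
    let y : ℤ → Lt k := fun m => if m ≤ v.length then seq v m else .inr false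
    have hyne : ∀ m, y m ≠ .inr true := by
      intro m
      simp only [y]
      split_ifs with h2
      · by_cases h3 : m ≤ 0
        · rw [seq_nonpos v h3]; simp
        · have := seq_mid v (m - 1).toNat (by omega)
          rw [show 1 + ((m - 1).toNat : ℤ) = m by omega] at this
          rw [this]; simp
      · simp
    have hy : y ∈ shiftOf (E (k := k)) := by
      rw [mem_iff]
      exact ⟨fun m hm => absurd hm (hyne m), fun m u _ _ hb => absurd hb (hyne _)⟩
    rw [hF] at hy
    have := hy n
    convert this using 2
    ext i
    simp only [y]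
    rw [if_pos (by have := i.isLt; omega)]
  · -- no reset letter in the window
    let y : ℤ → Lt k := fun m => if m ≤ 0 then .inl 0 else seq v m
    have hyne : ∀ m, y m ≠ .inr false := by
      intro m
      simp only [y]
      split_ifs with h2
      · simp
      · by_cases h3 : (v.length : ℤ) < m
        · rw [seq_big v h3]; simp
        · have := seq_mid v (m - 1).toNat (by omega)
          rw [show 1 + ((m - 1).toNat : ℤ) = m by omega] at this
          rw [this]; simp
    have hy : y ∈ shiftOf (E (k := k)) := by
      rw [mem_iff]
      refine ⟨fun m hm => ?_, fun m u hm => absurd hm (hyne m)⟩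
      simp only [y] at hm ⊢
      split_ifs at hm with h2
      rw [if_neg (by omega)]
      by_cases h3 : (v.length : ℤ) < m
      · exact seq_big v (by omega)
      · exfalso
        have := seq_mid v (m - 1).toNat (by omega)
        rw [show 1 + ((m - 1).toNat : ℤ) = m by omega] at this
        rw [this] at hm; simp at hm
    rw [hF] at hy
    have := hy n
    convert this using 2
    ext i
    simp only [y]
    rw [if_neg (by omega)]

/-! ### Every presentation has at least `k` vertices -/

/-- The end points of the walks labelled by `a^∞ v`. -/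
def ends {V : Type} (E' : V → Lt k → V → Prop) (v : List (Fin k)) : Set V :=
  {q | ∃ s : ℤ → V, (∀ n : ℤ, n < 1 + v.length → E' (s n) (seq v n) (s (n + 1))) ∧
    s (1 + v.length) = q}

theorem card_ge [NeZero k] {V : Type} [Fintype V] (E' : V → Lt k → V → Prop)
    (hE' : shiftOf E' = shiftOf (E (k := k))) : k ≤ Fintype.card V := by
  classical
  obtain ⟨w, hw, hl⟩ := exists_full (k := k)
  have h1k : 1 ≤ 2 ^ k := Nat.one_le_two_pow
  have key : ∀ l l' : ℕ, l < l' → l' ≤ w.length →
      ends E' (w.take l) ≠ ends E' (w.take l') := by
    intro l l' hll' hl' heq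
    have hlen : (w.take l).length = l := by rw [List.length_take]; omega
    have hlen' : (w.take l').length = l' := by rw [List.length_take]; omega
    have hbad : ¬ ErrFree (w.take l' ++ w.drop l) := by
      intro h
      have := h.length_le
      rw [List.length_append, hlen', List.length_drop] at this
      omega
    have hmem : seq (w.take l' ++ w.drop l) ∈ shiftOf E' := by
      rw [hE', mem_iff, good_seq]; exact hbad
    obtain ⟨s, hs⟩ := hmem
    have hq : s (1 + l') ∈ ends E' (w.take l') := by
      refine ⟨s, fun n hn => ?_, by rw [hlen']⟩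
      have h2 := hs n
      rw [hlen'] at hn
      have h3 : seq (w.take l' ++ w.drop l) n = seq (w.take l') n := by
        by_cases h0 : n ≤ 0
        · rw [seq_nonpos _ h0, seq_nonpos _ h0]
        · have e1 := seq_mid (w.take l') (n - 1).toNat (by omega)
          have e2 := seq_mid (w.take l' ++ w.drop l) (n - 1).toNat
            (by rw [List.length_append]; omega)
          rw [show 1 + ((n - 1).toNat : ℤ) = n by omega] at e1 e2
          rw [e1, e2, List.getElem_append_left]
      rwa [h3] at h2
    rw [← heq] at hq
    obtain ⟨s', hs', hend⟩ := hq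
    rw [hlen] at hs' hend
    have hmem2 : seq w ∈ shiftOf E' := by
      refine ⟨fun n => if n ≤ 1 + l then s' n else s (n + (l' - l : ℤ)), fun n => ?_⟩
      have hw' : w = w.take l ++ w.drop l := (List.take_append_drop l w).symm
      rcases lt_or_ge n (1 + (l : ℤ)) with h | h
      · simp only [if_pos (le_of_lt h), if_pos (show n + 1 ≤ 1 + (l : ℤ) by omega)]
        have h2 := hs' n h
        have h3 : seq (w.take l) n = seq w n := by
          by_cases h0 : n ≤ 0
          · rw [seq_nonpos _ h0, seq_nonpos _ h0]
          · have e1 := seq_mid (w.take l) (n - 1).toNat (by omega)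
            have e2 := seq_mid w (n - 1).toNat (by omega)
            rw [show 1 + ((n - 1).toNat : ℤ) = n by omega] at e1 e2
            rw [e1, e2, List.getElem_take]
        rwa [h3] at h2
      · have h2 := hs (n + (l' - l : ℤ))
        have h3 : seq (w.take l' ++ w.drop l) (n + (l' - l : ℤ)) = seq w n := by
          by_cases h0 : (w.length : ℤ) < n
          · rw [seq_big w h0, seq_big]
            rw [List.length_append, hlen', List.length_drop]
            omega
          · have e1 := seq_mid w (n - 1).toNat (by omega)
            have e2 := seq_mid (w.take l' ++ w.drop l) (n + (l' - l : ℤ) - 1).toNat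
              (by rw [List.length_append, hlen', List.length_drop]; omega)
            rw [show 1 + ((n - 1).toNat : ℤ) = n by omega] at e1
            rw [show 1 + ((n + (l' - l : ℤ) - 1).toNat : ℤ) = n + (l' - l : ℤ) by omega] at e2
            rw [e1, e2, List.getElem_append_right (by rw [hlen']; omega), List.getElem_drop]
            congr 2
            rw [hlen']
            omega
        rw [h3] at h2
        have h4 : (if n ≤ 1 + (l : ℤ) then s' n else s (n + (l' - l : ℤ))) =
            s (n + (l' - l : ℤ)) := by
          split_ifs with h5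
          · have : n = 1 + l := by omega
            rw [this, hend]
            congr 1; ring
          · rfl
        simp only
        rw [h4, if_neg (show ¬ (n + 1 ≤ 1 + (l : ℤ)) by omega)]
        convert h2 using 2
        ring
    rw [hE', mem_iff, good_seq] at hmem2
    exact hmem2 hw
  have hinj : Function.Injective (fun l : Fin (2 ^ k) => ends E' (w.take l)) := by
    intro l l' h
    simp only at h
    rcases lt_trichotomy (l : ℕ) l' with h1 | h1 | h1
    · exact absurd h (key l l' h1 (by have := l'.isLt; omega))
    · exact Fin.ext h1
    · exact absurd h.symm (key l' l h1 (by have := l.isLt; omega))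
  have hcard := Fintype.card_le_of_injective _ hinj
  rw [Fintype.card_fin, Fintype.card_set] at hcard
  exact (Nat.pow_le_pow_iff_right (by norm_num)).mp hcard

/-! ### The result -/

theorem card_St : Fintype.card (St k) = 3 * k + 1 := by
  simp [St, Fintype.card_sum, Fintype.card_prod, Fintype.card_option]
  ring

/-- **MP_bb9d96_lc, Q1 (yes).**  There are `c > 0` and shifts of finite type `X 0, X 1, …` over
finite alphabets, each with a deterministic presentation, such that `s_d (X k) → ∞` and the minimum
step of `X k` is at least `2 ^ (c * s_d (X k))` for every `k`. Explicitly, `X k` has a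
deterministic presentation with `3 k + 4` vertices and minimum step at least `2 ^ (k + 1)`. -/
theorem result : ∃ c : ℝ, 0 < c ∧
    ∃ (A : ℕ → Type) (_ : ∀ k, Fintype (A k)) (X : ∀ k, Set (ℤ → A k)),
      (∀ k, IsSFT (X k)) ∧ (∀ k, (detSizes (X k)).Nonempty) ∧
      Filter.Tendsto (fun k => sd (X k)) Filter.atTop Filter.atTop ∧
      (∀ k, (2 : ℝ) ^ (c * (sd (X k) : ℝ)) ≤ minStep (X k)) ∧
      ∀ k, sd (X k) ≤ 3 * k + 4 ∧ 2 ^ (k + 1) ≤ minStep (X k) := by
  have hnz : ∀ k : ℕ, NeZero (k + 1) := fun k => ⟨by omega⟩
  have hmemsize : ∀ k : ℕ, 3 * k + 4 ∈ detSizes (shiftOf (E (k := k + 1))) := by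
    intro k
    refine ⟨St (k + 1), inferInstance, E, ?_, E_det, rfl⟩
    rw [card_St]; ring
  have hsd : ∀ k : ℕ, sd (shiftOf (E (k := k + 1))) ≤ 3 * k + 4 := fun k =>
    Nat.sInf_le (hmemsize k)
  have hsd' : ∀ k : ℕ, k + 1 ≤ sd (shiftOf (E (k := k + 1))) := by
    intro k
    refine le_csInf ⟨_, hmemsize k⟩ ?_
    rintro m ⟨V, hV, E', rfl, -, hE'⟩
    have := hnz k
    exact card_ge E' hE'
  have hmin : ∀ k : ℕ, 2 ^ (k + 1) ≤ minStep (shiftOf (E (k := k + 1))) := by
    intro k
    have := hnz k
    exact le_csInf ⟨_, isStep⟩ fun M hM => step_ge hM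
  refine ⟨1 / 4, by norm_num, fun k => Lt (k + 1), fun k => inferInstance,
    fun k => shiftOf (E (k := k + 1)), fun k => ?_, fun k => ⟨_, hmemsize k⟩, ?_, fun k => ?_,
    fun k => ⟨hsd k, hmin k⟩⟩
  · have := hnz k
    exact ⟨_, isStep⟩
  · exact Filter.tendsto_atTop_mono (fun k => (Nat.le_succ k).trans (hsd' k)) Filter.tendsto_id
  · have h1 : (1 / 4 : ℝ) * (sd (shiftOf (E (k := k + 1))) : ℝ) ≤ ((k + 1 : ℕ) : ℝ) := by
      have : (sd (shiftOf (E (k := k + 1))) : ℝ) ≤ ((3 * k + 4 : ℕ) : ℝ) := by
        exact_mod_cast hsd k
      push_cast at this ⊢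
      linarith
    calc (2 : ℝ) ^ ((1 / 4 : ℝ) * (sd (shiftOf (E (k := k + 1))) : ℝ))
        ≤ (2 : ℝ) ^ (((k + 1 : ℕ) : ℝ)) := Real.rpow_le_rpow_of_exponent_le (by norm_num) h1
      _ = (2 : ℝ) ^ (k + 1) := Real.rpow_natCast 2 (k + 1)
      _ ≤ _ := by exact_mod_cast hmin k

end Pool.Agent.Results.MP_bb9d96_lc.ExponentialStep
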